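import Pool.Agent.Y8.SK.IndT
import Pool.Agent.Y71.SK.UB
import Pool.Agent.Y961.SK.Rat
import Pool.Agent.Y574.SK.Bary
import Pool.Agent.Y108.SK.Bar2
import Pool.Agent.Y655.SK.Rkb
import Pool.Agent.Y87.SK.Barv
import Pool.Agent.Y438.SK.Close
import Pool.Agent.Y971.SK.Kon

/-! The dynamics of the rescaled reduced system: assembly. -/

set_option autoImplicit false

namespace Pool.Agent.Y8.SK

theorem s_CURC : S_CURC :=
  Pool.Agent.Y438.SK.t_CLOSE Pool.Agent.Y71.SK.t_UB Pool.Agent.Y961.SK.t_RAT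
    Pool.Agent.Y574.SK.t_BARY Pool.Agent.Y655.SK.rkb Pool.Agent.Y87.SK.barv
    Pool.Agent.Y108.SK.t_BAR2

theorem s_ODERT : S_ODERT :=
  t_ODERT Pool.Agent.Y971.SK.t_KON (t_INDT Pool.Agent.Y71.SK.t_UB s_CURC)

end Pool.Agent.Y8.SK
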