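import Pool.Agent.Y8.SK.St

/-! The dynamics of the rescaled reduced system, with the rate of the blow-up. -/

open Set Filter Topology MeasureTheory

set_option autoImplicit false

namespace Pool.Agent.Y8.SK

open Pool.Agent.Y5.E (At Aw Ut Uw loc)
open Pool.Agent.Y5.F (vfk Yk Wk)
open Pool.Agent.Y6.S (Pe6 SysR Tk Rk)
open Pool.Agent.Y8.EP (EE EE_pos dd Pp Pn zz th bb nb Cur Low Ub GrowE)

/-- The rate of the blow-up (type I) in the rescaled system. -/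
def TIE (κ : ℝ) (L : ℕ → ℝ) (T : ℝ) (x w : ℕ → ℝ → ℝ) : Prop :=
  ∃ C₀ : ℝ, ∀ t ∈ Ico 0 T, ∀ p, √(Yk κ x w p t) * (1 + L p * (T - t)) ≤ C₀

/-- Induction over the stages, with the rate of the blow-up. -/
def S_INDVT : Prop := ∀ (κ lam N N₂ Q η A : ℝ) (H : ℕ → ℝ) (L C ℓ : ℕ → ℝ) (B : ℕ → ℕ → ℝ)
  (T : ℝ) (x w v f : ℕ → ℝ → ℝ),
  Gd κ lam N Q η L C ℓ B T x w f → SysV κ lam N₂ Q L T x w v → Kon κ lam N₂ Q η H A →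
  T ≤ lam ∧ ((GrowE κ lam T x w ∧ TIE κ L T x w) ∨
    ∃ (n₀ : ℕ) (K₀ : ℝ), ∃ s ∈ Ico 0 T, ∀ t ∈ Ico s T, ∀ k : ℕ,
      √(Yk κ x w (n₀ + k) t) ≤ K₀ * Real.exp (-(lam / 100 * k)))

/-- The dynamics of the rescaled reduced system (as `Pool.Agent.Y6.S.S_ODER`, with the rate of the
blow-up). -/
def S_ODERT : Prop := ∀ (κ lam N N₂ : ℝ) (L C ℓ : ℕ → ℝ) (B : ℕ → ℕ → ℝ),
  Pe6 κ lam N L C ℓ B → 1 ≤ N₂ → ∃ Q₀ T₁ : ℝ, 1 ≤ Q₀ ∧ ∀ Q, Q₀ ≤ Q →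
    ∀ (T : ℝ) (x w v f : ℕ → ℝ → ℝ), 0 < T →
    SysR κ lam N N₂ Q (3 / 2) L C ℓ B T x w v f →
    T ≤ T₁ ∧ ((GrowE κ lam T x w ∧ TIE κ L T x w) ∨
      ∃ (n₀ : ℕ) (K₀ : ℝ), ∃ s ∈ Ico 0 T, ∀ t ∈ Ico s T, ∀ k : ℕ,
        √(Yk κ x w (n₀ + k) t) ≤ K₀ * Real.exp (-(lam / 100 * k)))

theorem t_ODERT (hK : S_KON) (hI : S_INDVT) : S_ODERT := by
  intro κ lam N N₂ L C ℓ B q hN
  obtain ⟨H, A, K, Q₀, hK0, hQ0, hKon⟩ := hK κ lam N₂ q.κ0 q.κ1 q.lam_big hN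
  refine ⟨Q₀, lam, hQ0, fun Q hQ T x w v f hT s => ?_⟩
  obtain ⟨h1, h2, h3⟩ := hKon Q hQ
  have hQ1 : 1 ≤ Q := hQ0.trans hQ
  exact hI κ lam N N₂ Q (K / Q) A H L C ℓ B T x w v f
    ⟨q, hT, div_pos hK0 (by linarith), h2, hQ1, h3, sysW s⟩ (sysV s) h1

end Pool.Agent.Y8.SK
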