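import Pool.Agent.Y6.S.Red
import Pool.Agent.Y8.EP.St

/-!
The dynamics of the reduced system of `Pool.Agent.Y6.S.Red` (Navier-Stokes with a skew-adjoint
linear term of order 2): definitions. The analysis is that of `Pool.Agent.Y8.EP`, with the
corrected other modes `v G` instead of the damping of the other modes.
-/

open Set Filter Topology MeasureTheory

set_option autoImplicit false

namespace Pool.Agent.Y8.SK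

open Pool.Agent.Y5.E (At Aw Ut Uw loc)
open Pool.Agent.Y5.F (vfk Yk Wk)
open Pool.Agent.Y6.S (Pe6 SysR Tk Rk)
open Pool.Agent.Y8.EP (EE dd Pp Pn zz th bb nb Cur Low Ub GrowE)

/-- The part of `SysR` which does not involve `v`. -/
structure SysW (κ lam N Q A0 : ℝ) (L C ℓ : ℕ → ℝ) (B : ℕ → ℕ → ℝ) (T : ℝ)
    (x w f : ℕ → ℝ → ℝ) : Prop where
  dx : ∀ n, ∀ t ∈ Ico 0 T, HasDerivWithinAt (x n)
    (vfk κ L C ℓ B (fun m => x m t) n + f n t) (Ico 0 T) t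
  fb : ∀ n, ∀ t ∈ Ico 0 T, |f n t| ≤ N * (
    L n * (1 + At lam x w n t + √(Yk κ x w n t)) * √(Wk κ w n t)
    + Uw L w n t * √(Yk κ x w n t) + L n * Aw lam w n t * √(Yk κ x w (n + 1) t)
    + loc L x w n t)
  w0 : ∀ n, ∀ t ∈ Ico 0 T, 0 ≤ w n t
  wc : ∀ n, ContinuousOn (w n) (Ico 0 T)
  dY0 : ∀ t ∈ Ico 0 T, ∃ D, HasDerivWithinAt (Yk κ x w 0) D (Ico 0 T) t ∧ D ≤ 0
  dY : ∀ n, ∀ t ∈ Ico 0 T, ∃ D, HasDerivWithinAt (Yk κ x w (n + 1)) D (Ico 0 T) t ∧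
    D ≤ 2 * (C n * L n * x n t ^ 2 + N * loc L x w (n + 1) t) * √(Yk κ x w (n + 1) t)
      + 2 * (1001 / 1000 * Ut L x (n + 1) t + N * Uw L w (n + 1) t - ℓ (n + 1)) *
        Yk κ x w (n + 1) t
      + 2 * N * (Ut L x (n + 1) t + L (n + 1)) *
        (√(Yk κ x w (n + 1) t) * √(Wk κ w (n + 1) t))
      + 2 * N * (L n * At lam x w (n + 1) t * (|x n t| + w n t)) * √(Wk κ w (n + 1) t)
      + 2 * (if n % 2 = 0 then Q * N * L n * (w n t * w (n + 1) t) else 0)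
  bdd : ∀ k : ℕ, ∀ T' < T, ∃ M, ∀ t ∈ Icc 0 T', ∀ n, L n ^ k * (|x n t| + w n t) ≤ M
  en : ∀ t ∈ Ico 0 T, Yk κ x w 0 t ≤ A0 ^ 2
  x0 : x 0 0 = A0
  xs : ∀ n, x (n + 1) 0 = 0
  ws : ∀ n, w n 0 = 0

/-- The part of `SysR` with the corrected other modes. -/
structure SysV (κ lam N₂ Q : ℝ) (L : ℕ → ℝ) (T : ℝ) (x w v : ℕ → ℝ → ℝ) : Prop where
  v0 : ∀ G, ∀ t ∈ Ico 0 T, 0 ≤ v G t
  vc : ∀ G, ContinuousOn (v G) (Ico 0 T)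
  -- the correction
  vw : ∀ G, ∀ t ∈ Ico 0 T, |√(w (2 * G) t ^ 2 + κ ^ 2 * w (2 * G + 1) t ^ 2) - v G t| ≤
    N₂ / Q * (Tk κ lam L x w (2 * G) t / L (2 * G))
  -- the corrected other modes
  dv : ∀ G, ∀ t ∈ Ico 0 T, ∃ D, HasDerivWithinAt (fun τ => v G τ ^ 2) D (Ico 0 T) t ∧
    D ≤ 2 * v G t * (
      -((if G = 0 then 0 else 1 / 1000 * (L (2 * G) / lam)) * v G t)
      + N₂ * (L (2 * G) * (At lam x w (2 * G) t + √(Yk κ x w (2 * G) t))) * v G t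
      + N₂ / Q * Rk κ lam L x w (2 * G) t
      + N₂ * (L (2 * G) * (Aw lam w (2 * G) t + √(Wk κ w (2 * G) t)) * √(Wk κ w (2 * G) t)
        + (if G = 0 then 0 else L (2 * G - 1) * Aw lam w (2 * G) t * w (2 * G - 1) t)))

lemma sysW {κ lam N N₂ Q A0 : ℝ} {L C ℓ : ℕ → ℝ} {B : ℕ → ℕ → ℝ} {T : ℝ}
    {x w v f : ℕ → ℝ → ℝ} (s : SysR κ lam N N₂ Q A0 L C ℓ B T x w v f) :
    SysW κ lam N Q A0 L C ℓ B T x w f :=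
  ⟨s.dx, s.fb, s.w0, s.wc, s.dY0, s.dY, s.bdd, s.en, s.x0, s.xs, s.ws⟩

lemma sysV {κ lam N N₂ Q A0 : ℝ} {L C ℓ : ℕ → ℝ} {B : ℕ → ℕ → ℝ} {T : ℝ}
    {x w v f : ℕ → ℝ → ℝ} (s : SysR κ lam N N₂ Q A0 L C ℓ B T x w v f) :
    SysV κ lam N₂ Q L T x w v :=
  ⟨s.v0, s.vc, s.vw, s.dv⟩

/-- Assumptions; `η` is the size of the other modes (`η = K / Q` with `K` independent of `Q`). -/
structure Gd (κ lam N Q η : ℝ) (L C ℓ : ℕ → ℝ) (B : ℕ → ℕ → ℝ) (T : ℝ) (x w f : ℕ → ℝ → ℝ) :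
    Prop where
  q : Pe6 κ lam N L C ℓ B
  hT : 0 < T
  η0 : 0 < η
  ηs : η ≤ Real.exp (-(2 * lam))
  Q1 : 1 ≤ Q
  Qη : Q * η ^ 2 ≤ Real.exp (-(2 * lam))
  sy : SysW κ lam N Q (3 / 2) L C ℓ B T x w f

/-- The constants of the bounds of the other modes. -/
structure Kon (κ lam N₂ Q η : ℝ) (H : ℕ → ℝ) (A : ℝ) : Prop where
  N₂1 : 1 ≤ N₂
  Q1 : 1 ≤ Q
  Hb : ∀ k, 4000 * N₂ * lam * Real.exp lam ≤ H k
  Hm : ∀ k, H (k + 1) ≤ H k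
  -- near and far levels
  Hs : ∀ k : ℕ, (1 ≤ k ∧ 10 ^ 5 * N₂ * lam * (k + 1) ≤ √lam ^ (k - 1)) ∨
    Real.exp (4 * N₂ * lam ^ (k + 2)) * (H (k + 1) + 2 * N₂ * Real.exp lam * lam ^ (k + 2)) ≤ H k
  Ab : 2 * N₂ * lam * Real.exp lam ≤ A
  Kη : κ⁻¹ * Real.exp lam * (Real.exp (3 * N₂ * lam) * (H 0 + 2 * A) + N₂) ≤ η * Q

/-- Choice of the constants. -/
def S_KON : Prop := ∀ κ lam N₂ : ℝ, 0 < κ → κ ≤ 1 → 10 ^ 30 ≤ lam → 1 ≤ N₂ →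
  ∃ (H : ℕ → ℝ) (A K Q₀ : ℝ), 0 < K ∧ 1 ≤ Q₀ ∧ ∀ Q, Q₀ ≤ Q →
    Kon κ lam N₂ Q (K / Q) H A ∧ K / Q ≤ Real.exp (-(2 * lam)) ∧
    Q * (K / Q) ^ 2 ≤ Real.exp (-(2 * lam))

/-! ### The stages -/

/-- The barrier for the group `p` in the stage `n`. -/
noncomputable def bh (lam : ℝ) (C : ℕ → ℝ) (x : ℕ → ℝ → ℝ) (n p : ℕ) (t : ℝ) : ℝ :=
  if p ≤ n + 1 then 1 else bb lam C x n (p - (n + 2)) t

/-- The state at the beginning of the stage `n` (`wH` is the history of the other modes). -/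
structure Stg (κ lam η : ℝ) (L : ℕ → ℝ) (T : ℝ) (x w : ℕ → ℝ → ℝ) (n : ℕ) (σ : ℕ → ℝ) :
    Prop where
  σ0 : σ 0 = 0
  σlt : ∀ i < n, σ i < σ (i + 1)
  σT : σ n < T
  dur : ∀ i < n, σ (i + 1) - σ i ≤ 62 / 100 * lam / L i
  aY : ∀ i ≤ n, i ≠ 0 → √(Yk κ x w i (σ i)) = 1
  wH : ∀ t ∈ Icc 0 (σ n), ∀ p, w p t ≤ η
  init : 9999 / 10000 ≤ x n (σ n)
  prev : n ≠ 0 → 999 / 1000 ≤ x (n - 1) (σ n)
  tl : ∀ j : ℕ, √(Yk κ x w (n + 1 + j) (σ n)) ≤ Real.exp (-(Pp j) * lam)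
  ng : ∀ j : ℕ, -(Real.exp (-(Pn j) * lam)) ≤ x (n + 1 + j) (σ n)
  tw : ∀ j : ℕ, w (n + 1 + j) (σ n) ≤ η * Real.exp (-(Pp j) * lam)

/-- The bounds of the corrected other modes at the beginning of the stage `n`. -/
def VS (lam N₂ Q : ℝ) (H : ℕ → ℝ) (A : ℝ) (L : ℕ → ℝ) (v : ℕ → ℝ → ℝ) (n : ℕ)
    (σ : ℕ → ℝ) : Prop :=
  ∀ G : ℕ, v G (σ n) ≤ 1 / Q * (if 2 * G ≤ n then
      Real.exp (4 * N₂ * (L (2 * G) * (σ n - σ (2 * G)))) *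
        (H 0 + A * (2 - 2 * (1 / 2) ^ (n - 2 * G)))
    else H (2 * G - n) * Real.exp (-(Pp (2 * G - n - 1)) * lam))

/-- The bounds of the corrected other modes in the stage `n`. -/
def VD (lam N₂ Q : ℝ) (H : ℕ → ℝ) (A : ℝ) (L C : ℕ → ℝ) (x v : ℕ → ℝ → ℝ) (n : ℕ)
    (σ : ℕ → ℝ) (t : ℝ) : Prop :=
  ∀ G : ℕ, v G t ≤ 1 / Q * (if 2 * G ≤ n then
      Real.exp (4 * N₂ * (L (2 * G) * (t - σ (2 * G)))) * (H 0 + A * (2 - (1 / 2) ^ (n - 2 * G)))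
    else H (2 * G - n - 1) * bh lam C x n (2 * G) t)

/-- the bootstrap hypotheses at the time `t` -/
structure Hy (κ lam η : ℝ) (C : ℕ → ℝ) (x w : ℕ → ℝ → ℝ) (n : ℕ) (t : ℝ) : Prop where
  r : -(C n / 4) < x (n + 1) t
  Y : √(Yk κ x w (n + 2) t) < 2 * bb lam C x n 0 t
  W : ∀ p, w p t < 2 * η * bh lam C x n p t

/-- conclusions for the current stage -/
structure CurC (κ lam N₂ Q η : ℝ) (H : ℕ → ℝ) (A : ℝ) (L C : ℕ → ℝ) (x w v : ℕ → ℝ → ℝ)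
    (n : ℕ) (σ : ℕ → ℝ) (t : ℝ) : Prop where
  X : 9998 / 10000 ≤ x n t
  time : (t - σ n) * L n ≤ 611 / 1000 * lam
  r : -(C n / 8) ≤ x (n + 1) t
  W : ∀ p, w p t ≤ η
  tl : ∀ j : ℕ, √(Yk κ x w (n + 2 + j) t) ≤ Real.exp (-(Pp j) * lam)
  tw : ∀ j : ℕ, w (n + 2 + j) t ≤ η * Real.exp (-(Pp j) * lam)
  ng : ∀ j : ℕ, -(Real.exp (-(Pn j) * lam)) ≤ x (n + 2 + j) t
  V : ∀ G : ℕ, v G t ≤ 1 / Q * (if 2 * G ≤ n then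
      Real.exp (4 * N₂ * (L (2 * G) * (t - σ (2 * G)))) * (H 0 + A * (2 - (1 / 2) ^ (n - 2 * G)))
    else H (2 * G - n - 1) *
      (if 2 * G = n + 1 then 1 else Real.exp (-(Pp (2 * G - n - 2)) * lam)))

/-- Hypotheses for the barriers on `[σ n, t]`. -/
structure BH (κ lam N Q η : ℝ) (L C ℓ : ℕ → ℝ) (B : ℕ → ℕ → ℝ) (T : ℝ)
    (x w f : ℕ → ℝ → ℝ) (n : ℕ) (σ : ℕ → ℝ) (t1 t : ℝ) : Prop where
  g : Gd κ lam N Q η L C ℓ B T x w f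
  h : Stg κ lam η L T x w n σ
  hc : Cur κ lam L T x w n σ t1
  ub : Ub κ lam L x w n σ t1
  ht : t ∈ Ioo (σ n) t1
  hy : ∀ τ ∈ Ico (σ n) t, Hy κ lam η C x w n τ
  hr : 7 / 8 * C n ≤ zz C x n t
  hd : ∀ τ ∈ Ioo (σ n) t, ∃ r', HasDerivAt (zz C x n) r' τ ∧
    985 / 10000 * (L n * zz C x n τ) ≤ r'

end Pool.Agent.Y8.SK
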