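import Pool.Agent.Y363.SK.IND
import Pool.Agent.Y8.SK.StT

/-!
The induction over the stages with the rate of the blow-up (type I): in the case of the blow-up
`√(Yk κ x w p t) * (1 + L p * (T - t))` is bounded.
-/

open Set Filter Topology MeasureTheory

set_option autoImplicit false

namespace Pool.Agent.Y8.SK

open Pool.Agent.Y5.E (At Aw Ut Uw loc)
open Pool.Agent.Y5.F (vfk Yk Wk)
open Pool.Agent.Y6.S (Pe6 SysR Tk Rk Zp)
open Pool.Agent.Y8.EP (EE EE_pos dd Pp Pn zz th bb nb Cur Low Ub GrowE)
open Pool.Agent.Y363.SK (ind_mono ind_mono' ind_nn dd_small ind_base vs_base ind_grow ind_tot)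

variable {κ lam N N₂ Q η A : ℝ} {H : ℕ → ℝ} {L C ℓ : ℕ → ℝ} {B : ℕ → ℕ → ℝ} {T : ℝ}
  {x w v f : ℕ → ℝ → ℝ}
variable {n : ℕ} {σ : ℕ → ℝ} {t1 : ℝ}

/-- the bounds of the energies in the stage `n` -/
noncomputable def hb (lam : ℝ) (n p : ℕ) : ℝ :=
  if p ≤ n + 1 then 3 / 2 else Real.exp (-(Pp (p - (n + 2))) * lam)

/-- One step of the induction. -/
theorem ind_stepT (hU : S_UB) (hCC : S_CURC) (g : Gd κ lam N Q η L C ℓ B T x w f)
    (sv : SysV κ lam N₂ Q L T x w v) (kn : Kon κ lam N₂ Q η H A) (h : Stg κ lam η L T x w n σ)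
    (hvs : VS lam N₂ Q H A L v n σ) :
    Cur κ lam L T x w n σ T ∨ ∃ σ', Stg κ lam η L T x w (n + 1) σ' ∧
      VS lam N₂ Q H A L v (n + 1) σ' ∧ (∀ i ≤ n, σ' i = σ i) ∧
      ∀ t ∈ Ico (σ n) (σ' (n + 1)), ∀ p, √(Yk κ x w p t) ≤ hb lam n p := by
  have q := g.q
  have hlm := q.lamp
  have hlmb := q.lam_big
  have hLp := q.Lp n
  have h0 : 0 ≤ σ n := ind_nn h
  set T' := min T (σ n + 62 / 100 * lam / L n) with hT'
  have hσT' : σ n < T' := lt_min h.σT (by
    have : 0 < 62 / 100 * lam / L n := by positivity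
    linarith)
  have hT'T : T' ≤ T := min_le_left _ _
  set F : ℝ → ℝ := fun t => max (Yk κ x w (n + 1) t - 1) (99 / 100 - x n t) with hF
  have hsub : Ico (σ n) T' ⊆ Ico 0 T := fun t ht => ⟨h0.trans ht.1, ht.2.trans_le hT'T⟩
  have hfc : ContinuousOn F (Ico (σ n) T') := by
    refine ContinuousOn.sup ?_ ?_
    · exact ((g.Ycont (n + 1)).mono hsub).sub continuousOn_const
    · exact continuousOn_const.sub ((g.cont n).mono hsub)
  have hf0 : F (σ n) < 0 := by
    refine max_lt ?_ ?_
    · have h1 := h.tl 0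
      rw [add_zero] at h1
      have h3 : Real.exp (-(Pp 0) * lam) ≤ 1 / 10 ^ 20 := q.exp_small (by
        rw [Pp]; norm_num)
      have h2 : √(Yk κ x w (n + 1) (σ n)) < 1 := by
        refine lt_of_le_of_lt (h1.trans h3) (by norm_num)
      have h6 : Yk κ x w (n + 1) (σ n) < 1 ^ 2 := by
        rw [← Real.sq_sqrt (g.Y_nonneg (n + 1) (σ n))]
        gcongr
      linarith
    · have := h.init; linarith
  rcases Pool.Agent.Y5.first_time hfc hf0 with hI | ⟨t1, ht1, hft1, hbelow⟩
  · -- incomplete stage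
    left
    have hc : Cur κ lam L T x w n σ T' := ⟨hσT', hT'T, min_le_right _ _, fun t ht => by
      have h1 := hI t ht
      have h2 := (max_lt_iff.1 h1)
      exact ⟨by linarith [h2.1], by linarith [h2.2]⟩⟩
    have hdur : (T' - σ n) * L n ≤ 611 / 1000 * lam := by
      by_contra hcon
      push Not at hcon
      set v' := σ n + 611 / 1000 * lam / L n with hv
      have hv1 : σ n < v' := by
        have : 0 < 611 / 1000 * lam / L n := by positivity
        linarith
      have hv2 : v' < T' := by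
        have : 611 / 1000 * lam / L n < T' - σ n := by
          rw [div_lt_iff₀ hLp]; exact hcon
        linarith
      obtain ⟨t, ht1, ht2⟩ := exists_between hv2
      have h1 := (hCC κ lam N N₂ Q η A H L C ℓ B T x w v f n σ T' g sv kn h hvs hc t
        ⟨hv1.trans ht1, ht2⟩).time
      have h2 : 611 / 1000 * lam < (t - σ n) * L n := by
        rw [← div_lt_iff₀ hLp]; linarith
      linarith
    have hT'eq : T' = T := by
      by_contra hne
      have h1 : T' = σ n + 62 / 100 * lam / L n := by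
        rcases min_choice T (σ n + 62 / 100 * lam / L n) with h2 | h2
        · exact absurd h2 hne
        · exact h2
      have h2 : (T' - σ n) * L n = 62 / 100 * lam := by
        rw [h1, add_sub_cancel_left, div_mul_cancel₀ _ hLp.ne']
      linarith
    rwa [hT'eq] at hc
  · -- complete stage
    right
    have ht1T : t1 < T := ht1.2.trans_le hT'T
    have ht10 : 0 < t1 := h0.trans_lt ht1.1
    have hc : Cur κ lam L T x w n σ t1 := ⟨ht1.1, ht1T.le, ht1.2.le.trans (min_le_right _ _),
      fun t ht => by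
        have h1 := hbelow t ht
        have h2 := (max_lt_iff.1 h1)
        exact ⟨by linarith [h2.1], by linarith [h2.2]⟩⟩
    have hcc := hCC κ lam N N₂ Q η A H L C ℓ B T x w v f n σ t1 g sv kn h hvs hc
    have hX : 9998 / 10000 ≤ x n t1 := by
      have := Pool.Agent.Y5.lim_le (f := fun τ => -(x n τ)) (T := T) (α := σ n) (t := t1)
        (c := -(9998 / 10000)) (g.cont n).neg h0 ht1T ht1.1 (fun τ hτ => by
          have := (hcc τ hτ).X
          linarith)
      linarith
    have hY1 : Yk κ x w (n + 1) t1 = 1 := by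
      have h1 : 99 / 100 - x n t1 < 0 := by linarith
      have h2 : max (Yk κ x w (n + 1) t1 - 1) (99 / 100 - x n t1) = 0 :=
        hft1
      rcases max_choice (Yk κ x w (n + 1) t1 - 1) (99 / 100 - x n t1) with h3 | h3
      · rw [h3] at h2; linarith
      · rw [h3] at h2; linarith
    have hCp := q.Cp n
    have hCs := q.C_small n
    have hZ0 : -(C n / 8) ≤ x (n + 1) t1 := by
      have h2 := Pool.Agent.Y5.lim_le (f := fun τ => -(x (n + 1) τ)) (T := T)
        (α := σ n) (t := t1) (c := C n / 8) (g.cont (n + 1)).neg h0 ht1T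
        ht1.1 (fun τ hτ => by
          have h3 := (hcc τ hτ).r
          linarith)
      linarith
    have hwη : ∀ p, w p t1 ≤ η := fun p =>
      Pool.Agent.Y5.lim_le (T := T) (α := σ n) (g.wcont p) h0 ht1T ht1.1
        (fun τ hτ => (hcc τ hτ).W p)
    have hw1 : w (n + 1) t1 ≤ dd lam := by
      have h1 := g.η_dd2
      have h2 := g.η0
      have h3 := hwη (n + 1)
      linarith
    have htl : ∀ j : ℕ, √(Yk κ x w (n + 2 + j) t1) ≤ Real.exp (-(Pp j) * lam) := fun j =>
      Pool.Agent.Y5.lim_le (f := fun τ => √(Yk κ x w (n + 2 + j) τ)) (T := T) (α := σ n)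
        (g.Ycont (n + 2 + j)).sqrt h0 ht1T ht1.1 (fun τ hτ => (hcc τ hτ).tl j)
    have htw : ∀ j : ℕ, w (n + 2 + j) t1 ≤ η * Real.exp (-(Pp j) * lam) := fun j =>
      Pool.Agent.Y5.lim_le (T := T) (α := σ n) (g.wcont (n + 2 + j)) h0 ht1T ht1.1
        (fun τ hτ => (hcc τ hτ).tw j)
    have hng : ∀ j : ℕ, -(Real.exp (-(Pn j) * lam)) ≤ x (n + 2 + j) t1 := fun j => by
      have := Pool.Agent.Y5.lim_le (f := fun τ => -(x (n + 2 + j) τ)) (T := T) (α := σ n)
        (t := t1) (c := Real.exp (-(Pn j) * lam))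
        (g.cont (n + 2 + j)).neg h0 ht1T ht1.1 (fun τ hτ => by
          have := (hcc τ hτ).ng j
          linarith)
      linarith
    have hn1 : ¬ (n + 1 ≤ n) := by omega
    have hhist : ∀ t ∈ Ico (σ n) t1, ∀ p, √(Yk κ x w p t) ≤ hb lam n p := by
      intro t ht p
      have hwall : ∀ τ ∈ Ico 0 t1, ∀ p, w p τ ≤ 2 * η := by
        intro τ hτ p
        have hη := g.η0
        rcases le_or_gt τ (σ n) with h1 | h1
        · have h2 := h.wH τ ⟨hτ.1, h1⟩ p
          linarith
        · have h2 := (hcc τ ⟨h1, hτ.2⟩).W p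
          linarith
      have hUb := (hU κ lam N Q η L C ℓ B T x w f n σ t1 g h ht1T.le hc.le hwall).1
      unfold hb
      rcases Nat.lt_or_ge n p with hp | hp
      · rcases Nat.lt_or_ge (n + 1) p with hp1 | hp1
        · rw [if_neg (by omega)]
          obtain ⟨j, rfl⟩ : ∃ j, p = n + 2 + j := ⟨p - (n + 2), by omega⟩
          rw [Nat.add_sub_cancel_left]
          rcases eq_or_lt_of_le ht.1 with h1 | h1
          · rw [← h1]
            have h2 := h.tl (j + 1)
            rw [show n + 1 + (j + 1) = n + 2 + j by ring] at h2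
            refine h2.trans (Real.exp_le_exp.2 ?_)
            unfold Pp
            push_cast
            linarith
          · exact (hcc t ⟨h1, ht.2⟩).tl j
        · have : p = n + 1 := by omega
          subst this
          rw [if_pos le_rfl]
          have h1 := (hc.act t ht).1
          calc √(Yk κ x w (n + 1) t) ≤ √1 := Real.sqrt_le_sqrt h1.le
            _ = 1 := Real.sqrt_one
            _ ≤ _ := by norm_num
      · rw [if_pos (by omega)]
        exact hUb.Y p hp t ⟨(ind_mono' h hp).trans ht.1, ht.2⟩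
    refine ⟨fun i => if i ≤ n then σ i else t1, ?_, ?_, fun i hi => if_pos hi, ?_⟩
    rotate_left
    rotate_left
    · have e0 : (fun i => if i ≤ n then σ i else t1) (n + 1) = t1 := if_neg hn1
      rw [e0]
      exact hhist
    rotate_left
    · intro G
      have e0 : (fun i => if i ≤ n then σ i else t1) (n + 1) = t1 := if_neg hn1
      rw [e0]
      by_cases h1 : 2 * G ≤ n
      · have e1 : (fun i => if i ≤ n then σ i else t1) (2 * G) = σ (2 * G) := if_pos h1
        have e2 : (2 : ℝ) - 2 * (1 / 2) ^ (n + 1 - 2 * G) = 2 - (1 / 2) ^ (n - 2 * G) := by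
          rw [show n + 1 - 2 * G = (n - 2 * G) + 1 by omega, pow_succ]
          ring
        rw [if_pos (show 2 * G ≤ n + 1 by omega), e1, e2]
        have h3 := Pool.Agent.Y5.lim_le (f := fun τ => v G τ - 1 / Q *
          (Real.exp (4 * N₂ * (L (2 * G) * (τ - σ (2 * G)))) *
            (H 0 + A * (2 - (1 / 2) ^ (n - 2 * G))))) (T := T) (α := σ n) (t := t1) (c := 0)
          ((sv.vc G).sub (Continuous.continuousOn (by fun_prop))) h0 ht1T ht1.1
          (fun τ hτ => by
            have h4 := (hcc τ hτ).V G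
            rw [if_pos h1] at h4
            linarith)
        linarith
      · by_cases h2 : 2 * G = n + 1
        · have e1 : (fun i => if i ≤ n then σ i else t1) (2 * G) = t1 := if_neg h1
          rw [if_pos (show 2 * G ≤ n + 1 by omega), e1]
          have h3 := Pool.Agent.Y5.lim_le (f := v G) (T := T) (α := σ n) (t := t1)
            (c := 1 / Q * H 0) (sv.vc G) h0 ht1T ht1.1
            (fun τ hτ => by
              have h4 := (hcc τ hτ).V G
              rw [if_neg h1, if_pos h2, show 2 * G - n - 1 = 0 by omega, mul_one] at h4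
              exact h4)
          rw [show n + 1 - 2 * G = 0 by omega, sub_self, mul_zero, mul_zero, Real.exp_zero,
            pow_zero, mul_one, sub_self, mul_zero, add_zero, one_mul]
          exact h3
        · rw [if_neg (show ¬ 2 * G ≤ n + 1 by omega)]
          refine Pool.Agent.Y5.lim_le (f := v G) (T := T) (α := σ n) (t := t1)
            (sv.vc G) h0 ht1T ht1.1 (fun τ hτ => ?_)
          have h4 := (hcc τ hτ).V G
          rw [if_neg h1, if_neg h2] at h4
          rw [show 2 * G - (n + 1) = 2 * G - n - 1 by omega,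
            show 2 * G - n - 1 - 1 = 2 * G - n - 2 by omega]
          exact h4
    constructor
    · simp [h.σ0]
    · intro i hi
      rcases Nat.lt_succ_iff_lt_or_eq.1 hi with h1 | h1
      · rw [if_pos (by omega), if_pos (by omega)]; exact h.σlt i h1
      · subst h1
        rw [if_pos le_rfl, if_neg (by omega)]; exact ht1.1
    · rw [if_neg hn1]; exact ht1T
    · intro i hi
      rcases Nat.lt_succ_iff_lt_or_eq.1 hi with h1 | h1
      · rw [if_pos (by omega), if_pos (by omega)]; exact h.dur i h1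
      · subst h1
        rw [if_pos le_rfl, if_neg (by omega)]
        have := hc.le
        linarith
    · intro i hi hi0
      rcases Nat.lt_succ_iff_lt_or_eq.1 (Nat.lt_succ_of_le hi) with h1 | h1
      · rw [if_pos (by omega)]; exact h.aY i (by omega) hi0
      · subst h1
        rw [if_neg (by omega), hY1, Real.sqrt_one]
    · intro t ht p
      rw [if_neg hn1] at ht
      rcases le_or_gt t (σ n) with h1 | h1
      · exact h.wH t ⟨ht.1, h1⟩ p
      · rcases lt_or_eq_of_le ht.2 with h2 | h2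
        · exact (hcc t ⟨h1, h2⟩).W p
        · rw [h2]
          exact hwη p
    · rw [if_neg hn1]
      have h1 := g.Y_succ (t := t1) ⟨ht10.le, ht1T⟩ (n + 1)
      rw [hY1] at h1
      have e : n + 1 + 1 = n + 2 := rfl
      rw [e] at h1
      -- the tail is small
      have h3 : √(Yk κ x w (n + 2) t1) ≤ 1 / 10 ^ 6 := by
        have h4 := htl 0
        rw [add_zero] at h4
        have h5 : Real.exp (-(Pp 0) * lam) ≤ 1 / 10 ^ 20 := q.exp_small (by
          rw [Pp]; norm_num)
        exact (h4.trans h5).trans (by norm_num)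
      have h4 : Yk κ x w (n + 2) t1 ≤ (1 / 10 ^ 6) ^ 2 := by
        rw [← Real.sq_sqrt (g.Y_nonneg (n + 2) t1)]
        gcongr
      have hw0 := g.sy.w0 (n + 1) t1 ⟨ht10.le, ht1T⟩
      have h4w : w (n + 1) t1 ≤ 1 / 10 ^ 6 := (hw1.trans (dd_small q)).trans (by norm_num)
      have h4w2 : w (n + 1) t1 ^ 2 ≤ (1 / 10 ^ 6) ^ 2 := by gcongr
      have hκY : κ ^ 2 * Yk κ x w (n + 2) t1 ≤ Yk κ x w (n + 2) t1 :=
        mul_le_of_le_one_left (g.Y_nonneg (n + 2) t1) q.κsq
      have h5 : (9999 / 10000) ^ 2 ≤ x (n + 1) t1 ^ 2 := by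
        have e1 : (1 / 10 ^ 6 : ℝ) ^ 2 = 1 / 10 ^ 12 := by norm_num
        rw [e1] at h4 h4w2
        norm_num
        norm_num at h4 h4w2
        linarith
      have h6 : 9999 / 10000 ≤ |x (n + 1) t1| := by
        exact (le_abs_self _).trans (sq_le_sq.1 h5)
      rcases le_total 0 (x (n + 1) t1) with h7 | h7
      · rwa [abs_of_nonneg h7] at h6
      · rw [abs_of_nonpos h7] at h6
        exfalso
        linarith
    · intro _
      rw [if_neg hn1, Nat.add_sub_cancel]
      linarith
    · intro j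
      rw [if_neg hn1]
      exact htl j
    · intro j
      rw [if_neg hn1]
      exact hng j
    · intro j
      rw [if_neg hn1]
      exact htw j


lemma hb_le (q : Pe6 κ lam N L C ℓ B) (n p : ℕ) {s : ℝ} (hs : 0 ≤ s)
    (h : s * L n ≤ 6201 / 10000 * lam) : hb lam n p * (1 + L p * s) ≤ 3 * lam ^ 3 := by
  have hlm := q.lamp
  have hlb := q.lam_big
  have hLp := q.Lp n
  have hl1 := q.lam1
  have h3 : 1 ≤ lam ^ 3 := one_le_pow₀ hl1
  have h23 : lam ^ 2 ≤ lam ^ 3 := pow_le_pow_right₀ hl1 (by norm_num)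
  have hsL : s * L n ≤ lam := by linarith
  unfold hb
  split_ifs with hp
  · have h1 : L p ≤ lam * L n := by
      rw [← q.L_succ n]
      exact q.Lmono hp
    have h2 : L p * s ≤ lam ^ 2 := by
      calc L p * s ≤ lam * L n * s := by gcongr
        _ = lam * (s * L n) := by ring
        _ ≤ lam * lam := by gcongr
        _ = _ := by ring
    linarith
  · obtain ⟨j, rfl⟩ : ∃ j, p = n + 2 + j := ⟨p - (n + 2), by omega⟩
    rw [Nat.add_sub_cancel_left]
    have h1 : L (n + 2 + j) * s ≤ lam ^ (j + 3) := by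
      rw [show n + 2 + j = n + (j + 2) by ring, q.Lk n (j + 2)]
      calc lam ^ (j + 2) * L n * s = lam ^ (j + 2) * (s * L n) := by ring
        _ ≤ lam ^ (j + 2) * lam := by gcongr
        _ = _ := by ring
    have h4 : 1 ≤ lam ^ (j + 3) := one_le_pow₀ hl1
    have h5 : lam * Real.exp (-(558 / 10000) * lam) ≤ 1 := by
      have h6 := q.EE_small 1 (α := -(558 / 10000)) (by norm_num)
      have h7 := q.EE_lam
      rw [pow_one] at h6
      have h8 := Real.exp_pos (-(558 / 10000) * lam)
      calc lam * Real.exp (-(558 / 10000) * lam) ≤ EE lam * Real.exp (-(558 / 10000) * lam) := by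
            gcongr; linarith
        _ ≤ 1 := h6.trans (by norm_num)
    have h9 : Real.exp (-(Pp j) * lam) ≤ Real.exp (-(558 / 10000) * lam) ^ j := by
      rw [← Real.exp_nat_mul]
      apply Real.exp_le_exp.2
      unfold Pp
      nlinarith
    have h10 := q.Lp (n + 2 + j)
    have h11 : 0 ≤ 1 + L (n + 2 + j) * s := by positivity
    calc Real.exp (-(Pp j) * lam) * (1 + L (n + 2 + j) * s)
        ≤ Real.exp (-(558 / 10000) * lam) ^ j * (lam ^ (j + 3) + lam ^ (j + 3)) :=
          mul_le_mul h9 (by linarith) h11 (by positivity)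
      _ = 2 * lam ^ 3 * (lam * Real.exp (-(558 / 10000) * lam)) ^ j := by ring
      _ ≤ 2 * lam ^ 3 * 1 := by
          gcongr
          exact pow_le_one₀ (by positivity) h5
      _ ≤ _ := by linarith

/-- in which stage is the time `t`? -/
lemma find_stage (hσ0 : σ 0 = 0) {t : ℝ} (ht0 : 0 ≤ t) :
    ∀ m : ℕ, t < σ m → ∃ i < m, t ∈ Ico (σ i) (σ (i + 1)) := by
  intro m
  induction m with
  | zero => intro h; rw [hσ0] at h; linarith
  | succ m ih =>
    intro h
    rcases lt_or_ge t (σ m) with h1 | h1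
    · obtain ⟨i, hi, h2⟩ := ih h1
      exact ⟨i, by omega, h2⟩
    · exact ⟨m, by omega, h1, h⟩

/-- **Induction over the stages**, with the rate of the blow-up. -/
theorem t_INDT (hU : S_UB) (hCC : S_CURC) : S_INDVT := by
  intro κ lam N N₂ Q η A H L C ℓ B T x w v f g sv kn
  have hI := Pool.Agent.Y363.SK.t_IND hU hCC κ lam N N₂ Q η A H L C ℓ B T x w v f g sv kn
  refine ⟨hI.1, ?_⟩
  rcases hI.2 with hG | hT
  swap
  · exact Or.inr hT
  have q := g.q
  have hlm := q.lamp
  have hη := g.η0
  by_cases hcur : ∃ (n : ℕ) (σ : ℕ → ℝ), Stg κ lam η L T x w n σ ∧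
      VS lam N₂ Q H A L v n σ ∧ Cur κ lam L T x w n σ T
  · obtain ⟨n, σ, h, hvs, hc⟩ := hcur
    have h0 : 0 ≤ σ n := ind_nn h
    have hσT := hc.lt
    refine Or.inr ⟨n + 2, 1, (σ n + T) / 2, ⟨by linarith, by linarith⟩, ?_⟩
    intro t ht k
    have h1 := (hCC κ lam N N₂ Q η A H L C ℓ B T x w v f n σ T g sv kn h hvs hc t
      ⟨by linarith [ht.1], ht.2⟩).tl k
    refine h1.trans ?_
    rw [one_mul]
    refine Real.exp_le_exp.2 ?_
    have hk : (0 : ℝ) ≤ k := Nat.cast_nonneg k
    have h2 : 1 / 100 * (k : ℝ) ≤ Pp k := by rw [Pp]; linarith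
    have h3 := mul_le_mul_of_nonneg_right h2 hlm.le
    linarith
  · left
    refine ⟨hG, 3 * lam ^ 3, ?_⟩
    have hall : ∀ n, ∃ σ, Stg κ lam η L T x w n σ ∧ VS lam N₂ Q H A L v n σ ∧
        ∀ i < n, ∀ t ∈ Ico (σ i) (σ (i + 1)), ∀ p, √(Yk κ x w p t) ≤ hb lam i p := by
      intro n
      induction n with
      | zero => exact ⟨_, ind_base g, vs_base g sv kn, fun i hi => by omega⟩
      | succ n ih =>
        obtain ⟨σ, h, hvs, hh⟩ := ih
        rcases ind_stepT hU hCC g sv kn h hvs with h1 | h1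
        · exact absurd ⟨n, σ, h, hvs, h1⟩ hcur
        · obtain ⟨σ', h2, h3, h4, h5⟩ := h1
          refine ⟨σ', h2, h3, fun i hi t ht p => ?_⟩
          rcases Nat.lt_succ_iff_lt_or_eq.1 hi with h6 | h6
          · rw [h4 i (by omega), h4 (i + 1) (by omega)] at ht
            exact hh i h6 t ht p
          · subst h6
            rw [h4 i le_rfl] at ht
            exact h5 t ht p
    -- the times of the stages tend to `T`
    have hlim : ∀ T' < T, 0 ≤ T' → ∃ (n : ℕ) (σ : ℕ → ℝ), (Stg κ lam η L T x w n σ ∧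
        ∀ i < n, ∀ t ∈ Ico (σ i) (σ (i + 1)), ∀ p, √(Yk κ x w p t) ≤ hb lam i p) ∧
        T' < σ n := by
      intro T' hT' hT'0
      by_contra hcon
      push Not at hcon
      obtain ⟨Mx, hM⟩ := g.sy.bdd 10 T' hT'
      have htend : Tendsto (fun n : ℕ => (2 : ℝ) ^ n * (1 / 2)) atTop atTop :=
        (tendsto_pow_atTop_atTop_of_one_lt one_lt_two).atTop_mul_const (by norm_num)
      obtain ⟨n, hn⟩ := (htend.eventually_gt_atTop Mx).exists
      obtain ⟨σ, h, -, hh⟩ := hall n
      have h0 : 0 ≤ σ n := ind_nn h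
      have hσ : σ n ≤ T' := hcon n σ ⟨h, hh⟩
      have h1 := hM (σ n) ⟨h0, hσ⟩ n
      have hw0 := g.sy.w0 n (σ n) ⟨h0, h.σT⟩
      have h2 : 2 ^ n * (1 / 2) ≤ L n ^ 10 * (|x n (σ n)| + w n (σ n)) := by
        have h4 := h.init
        have h5 := q.Lpow' n
        have h6 := q.L1 n
        have h8 : (2 : ℝ) ^ n ≤ (10 ^ 30) ^ n := by gcongr; norm_num
        have h9 : L n ≤ L n ^ 10 := by
          calc L n = L n ^ 1 := (pow_one _).symm
            _ ≤ L n ^ 10 := pow_le_pow_right₀ h6 (by norm_num)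
        have h10 : 1 / 2 ≤ |x n (σ n)| + w n (σ n) := by
          have := le_abs_self (x n (σ n))
          linarith
        exact mul_le_mul (h8.trans (h5.trans h9)) h10 (by norm_num) (by positivity)
      linarith
    intro t ht p
    have key : ∀ T' ∈ Ioo t T, √(Yk κ x w p t) * (1 + L p * (T' - t)) ≤ 3 * lam ^ 3 := by
      intro T' hT'
      obtain ⟨n, σ, ⟨h, hh⟩, hσ⟩ := hlim T' hT'.2 (ht.1.trans hT'.1.le)
      obtain ⟨i, hi, hti⟩ := find_stage (σ := σ) h.σ0 ht.1 n (hT'.1.trans hσ)
      have hLp := q.Lp n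
      have hpos : 0 < 62 / 100 * lam / L n := by positivity
      have h1 := (hU κ lam N Q η L C ℓ B T x w f n σ (σ n) g h h.σT.le (by linarith)
        (fun τ hτ p => by
          have h2 := h.wH τ ⟨hτ.1, hτ.2.le⟩ p
          linarith)).2 i hi.le
      have hLi := q.Lp i
      have hLpp := q.Lp p
      have h2 : (T' - t) * L i ≤ 6201 / 10000 * lam := by
        refine le_trans ?_ h1
        have h3 : T' - t ≤ σ n - σ i := by linarith [hti.1]
        gcongr
      have h4 := hh i hi t hti p
      have h5 : 0 ≤ T' - t := by linarith [hT'.1]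
      have h6 : 0 ≤ 1 + L p * (T' - t) := by positivity
      exact (mul_le_mul_of_nonneg_right h4 h6).trans (hb_le q i p h5 h2)
    have hev : ∀ᶠ T' in 𝓝[<] T, √(Yk κ x w p t) * (1 + L p * (T' - t)) ≤ 3 * lam ^ 3 := by
      filter_upwards [Ioo_mem_nhdsLT ht.2] with T' hT'
      exact key T' hT'
    have hcont : Tendsto (fun T' : ℝ => √(Yk κ x w p t) * (1 + L p * (T' - t))) (𝓝[<] T)
        (𝓝 (√(Yk κ x w p t) * (1 + L p * (T - t)))) := by
      have hc : Continuous (fun T' : ℝ => √(Yk κ x w p t) * (1 + L p * (T' - t))) := by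
        fun_prop
      exact (hc.tendsto T).mono_left nhdsWithin_le_nhds
    exact le_of_tendsto hcont hev

end Pool.Agent.Y8.SK
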