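import Pool.Agent.Y8.SK.Q1

/-! Basic facts on the barriers `bh` and on the size of the other modes. -/

open Set Filter Topology MeasureTheory

set_option autoImplicit false

namespace Pool.Agent.Y8.SK

open Pool.Agent.Y5.E (At Aw Ut Uw loc)
open Pool.Agent.Y5.F (vfk Yk Wk)
open Pool.Agent.Y6.S (Pe6 SysR Tk Rk)
open Pool.Agent.Y8.EP (EE EE_pos dd Pp Pn zz th bb nb Cur Low Ub GrowE)

section seq

variable {κ lam N : ℝ} {L C ℓ : ℕ → ℝ} {B : ℕ → ℕ → ℝ} {x w : ℕ → ℝ → ℝ} {n : ℕ} {t : ℝ}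

lemma dd_pos (lam : ℝ) : 0 < dd lam := Real.exp_pos _

lemma bb_pos (lam : ℝ) (C : ℕ → ℝ) (x : ℕ → ℝ → ℝ) (n j : ℕ) (t : ℝ) :
    0 < bb lam C x n j t := by
  unfold bb; positivity

lemma bb_succ (lam : ℝ) (C : ℕ → ℝ) (x : ℕ → ℝ → ℝ) (n j : ℕ) (t : ℝ) :
    bb lam C x n (j + 1) t = Real.exp (-(558 / 10000) * lam) * bb lam C x n j t := by
  have e : -(Pp (j + 1 + 1)) * lam = -(558 / 10000) * lam + -(Pp (j + 1)) * lam := by
    unfold Pp
    push_cast
    ring
  unfold bb
  rw [e, Real.exp_add]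
  ring

lemma bh_low {p : ℕ} (h : p ≤ n + 1) : bh lam C x n p t = 1 := by
  unfold bh
  rw [if_pos h]

lemma bh_tail (j : ℕ) : bh lam C x n (n + 2 + j) t = bb lam C x n j t := by
  unfold bh
  rw [if_neg (by omega), Nat.add_sub_cancel_left]

lemma bh_pos (p : ℕ) : 0 < bh lam C x n p t := by
  unfold bh
  split_ifs
  · exact one_pos
  · exact bb_pos _ _ _ _ _ _

lemma th_nonneg (hl : 0 < lam) (C : ℕ → ℝ) (x : ℕ → ℝ → ℝ) (n : ℕ) (t : ℝ) :
    0 ≤ th lam C x n t := by
  unfold th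
  positivity

lemma th_le (q : Pe6 κ lam N L C ℓ B) (h : zz C x n t ≤ 1 + C n) :
    th lam C x n t ≤ 558 / 10000 * lam := by
  have hCs := q.C_small n
  have hl := q.lamp
  unfold th
  have h0 : 0 ≤ max (zz C x n t - 8952 / 10000) 0 := le_max_right _ _
  have h1 : max (zz C x n t - 8952 / 10000) 0 ≤ 10481 / 100000 := by
    apply max_le
    · linarith
    · norm_num
  calc 1000 / 197 * lam * max (zz C x n t - 8952 / 10000) 0 ^ 2
      ≤ 1000 / 197 * lam * (10481 / 100000) ^ 2 := by gcongr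
    _ = (1000 / 197 * (10481 / 100000) ^ 2) * lam := by ring
    _ ≤ 558 / 10000 * lam := by gcongr; norm_num

lemma bb_le (q : Pe6 κ lam N L C ℓ B) (h : zz C x n t ≤ 1 + C n) (j : ℕ) :
    bb lam C x n j t ≤ Real.exp (-(Pp j) * lam) := by
  have h1 := th_le q h
  unfold bb
  rw [← Real.exp_add]
  apply Real.exp_le_exp.2
  unfold Pp
  push_cast
  linarith

lemma bb_ge (q : Pe6 κ lam N L C ℓ B) (j : ℕ) :
    Real.exp (-(Pp (j + 1)) * lam) ≤ bb lam C x n j t := by
  have h1 := th_nonneg q.lamp C x n t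
  unfold bb
  rw [← Real.exp_add]
  apply Real.exp_le_exp.2
  linarith

/-- decay of the barriers, above the group `n + 1` -/
lemma bh_dec (q : Pe6 κ lam N L C ℓ B) (h : zz C x n t ≤ 1 + C n) {p : ℕ} (hp : n + 1 ≤ p) :
    bh lam C x n (p + 1) t ≤ Real.exp (-(4 / 1000) * lam) * bh lam C x n p t := by
  have hl := q.lamp
  obtain ⟨j, rfl⟩ := Nat.exists_eq_add_of_le hp
  rcases j with _ | j
  · rw [add_zero, bh_low le_rfl, mul_one]
    have e : bh lam C x n (n + 1 + 1) t = bb lam C x n 0 t := bh_tail 0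
    rw [e]
    refine (bb_le q h 0).trans (le_of_eq ?_)
    unfold Pp
    congr 1
    push_cast
    ring
  · have e : bh lam C x n (n + 1 + (j + 1) + 1) t = bb lam C x n (j + 1) t := by
      rw [show n + 1 + (j + 1) + 1 = n + 2 + (j + 1) by ring]
      exact bh_tail _
    have e' : bh lam C x n (n + 1 + (j + 1)) t = bb lam C x n j t := by
      rw [show n + 1 + (j + 1) = n + 2 + j by ring]
      exact bh_tail _
    rw [e, e', bb_succ]
    refine mul_le_mul_of_nonneg_right (Real.exp_le_exp.2 ?_) (bb_pos lam C x n j t).le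
    linarith

lemma bh_anti (q : Pe6 κ lam N L C ℓ B) (h : zz C x n t ≤ 1 + C n) (p : ℕ) :
    bh lam C x n (p + 1) t ≤ bh lam C x n p t := by
  have hl := q.lamp
  rcases Nat.lt_or_ge p (n + 1) with hp | hp
  · rw [bh_low (by omega), bh_low (by omega)]
  · refine (bh_dec q h hp).trans (mul_le_of_le_one_left (bh_pos p).le ?_)
    apply Real.exp_le_one_iff.2
    linarith

lemma bh_anti' (q : Pe6 κ lam N L C ℓ B) (h : zz C x n t ≤ 1 + C n) {p p' : ℕ} (hp : p ≤ p') :
    bh lam C x n p' t ≤ bh lam C x n p t :=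
  antitone_nat_of_succ_le (f := fun p => bh lam C x n p t) (fun p => bh_anti q h p) hp

lemma bh_le_one (q : Pe6 κ lam N L C ℓ B) (h : zz C x n t ≤ 1 + C n) (p : ℕ) :
    bh lam C x n p t ≤ 1 := by
  have := bh_anti' q h (Nat.zero_le p)
  rwa [bh_low (Nat.zero_le _)] at this

/-- the barriers of neighbouring groups are comparable -/
lemma bh_succ (q : Pe6 κ lam N L C ℓ B) (p : ℕ) :
    bh lam C x n p t ≤ Real.exp (6 / 100 * lam) * bh lam C x n (p + 1) t := by
  have hl := q.lamp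
  rcases Nat.lt_or_ge p (n + 1) with hp | hp
  · rw [bh_low (by omega), bh_low (by omega), mul_one]
    apply Real.one_le_exp
    positivity
  · obtain ⟨j, rfl⟩ := Nat.exists_eq_add_of_le hp
    rcases j with _ | j
    · rw [add_zero, bh_low le_rfl]
      have e : bh lam C x n (n + 1 + 1) t = bb lam C x n 0 t := bh_tail 0
      rw [e]
      have h1 := bb_ge (x := x) (n := n) (t := t) q 0
      calc (1 : ℝ) = Real.exp (6 / 100 * lam) * Real.exp (-(6 / 100) * lam) := by
            rw [← Real.exp_add, show 6 / 100 * lam + -(6 / 100) * lam = 0 by ring, Real.exp_zero]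
        _ ≤ Real.exp (6 / 100 * lam) * Real.exp (-(Pp (0 + 1)) * lam) := by
            gcongr
            unfold Pp
            push_cast
            linarith
        _ ≤ _ := by gcongr
    · have e : bh lam C x n (n + 1 + (j + 1) + 1) t = bb lam C x n (j + 1) t := by
        rw [show n + 1 + (j + 1) + 1 = n + 2 + (j + 1) by ring]
        exact bh_tail _
      have e' : bh lam C x n (n + 1 + (j + 1)) t = bb lam C x n j t := by
        rw [show n + 1 + (j + 1) = n + 2 + j by ring]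
        exact bh_tail _
      rw [e, e', bb_succ, ← mul_assoc, ← Real.exp_add]
      refine le_mul_of_one_le_left (bb_pos _ _ _ _ _ _).le ?_
      apply Real.one_le_exp
      linarith

end seq

namespace Gd

variable {κ lam N Q η : ℝ} {L C ℓ : ℕ → ℝ} {B : ℕ → ℕ → ℝ} {T : ℝ} {x w f : ℕ → ℝ → ℝ}
variable {n : ℕ} {t : ℝ}

/-- `η` is tiny, also compared to `dd` -/
lemma η_dd (g : Gd κ lam N Q η L C ℓ B T x w f) :
    η ≤ Real.exp (-(3 / 2) * lam) * dd lam := by
  refine g.ηs.trans (le_of_eq ?_)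
  rw [dd, ← Real.exp_add]
  congr 1
  ring

lemma η_dd2 (g : Gd κ lam N Q η L C ℓ B T x w f) : 2 * η ≤ dd lam := by
  have h1 := g.η_dd
  have h2 : Real.exp (-(3 / 2) * lam) ≤ 1 / 10 ^ 20 := g.q.exp_small (by norm_num)
  have h3 := dd_pos lam
  nlinarith

/-- `N η` is tiny compared to `dd` -/
lemma Nη (g : Gd κ lam N Q η L C ℓ B T x w f) :
    N * η ≤ Real.exp (-(14 / 10) * lam) * dd lam := by
  have h1 := g.η_dd
  have h2 := g.q.NE
  have h3 := g.q.N_one
  have h4 := EE_pos lam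
  have h5 := dd_pos lam
  have h6 : EE lam ^ 1 * Real.exp (-(3 / 2) * lam) ≤ Real.exp (-(14 / 10) * lam) :=
    g.q.EE_exp 1 (by norm_num)
  rw [pow_one] at h6
  calc N * η ≤ EE lam * (Real.exp (-(3 / 2) * lam) * dd lam) := by
        gcongr
        exact g.η0.le
    _ = (EE lam * Real.exp (-(3 / 2) * lam)) * dd lam := by ring
    _ ≤ _ := by gcongr

/-- `Q N η ^ 2` is tiny -/
lemma QNη (g : Gd κ lam N Q η L C ℓ B T x w f) :
    Q * N * η ^ 2 ≤ Real.exp (-(19 / 10) * lam) := by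
  have h1 := g.Qη
  have h2 := g.q.NE
  have h3 := g.q.N_one
  have h4 := EE_pos lam
  have h6 : EE lam ^ 1 * Real.exp (-2 * lam) ≤ Real.exp (-(19 / 10) * lam) :=
    g.q.EE_exp 1 (by norm_num)
  rw [pow_one] at h6
  have h7 : Real.exp (-(2 * lam)) = Real.exp (-2 * lam) := by congr 1; ring
  rw [h7] at h1
  have h8 : 0 ≤ Q * η ^ 2 := mul_nonneg (by linarith [g.Q1]) (sq_nonneg _)
  calc Q * N * η ^ 2 = N * (Q * η ^ 2) := by ring
    _ ≤ EE lam * Real.exp (-2 * lam) := by gcongr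
    _ ≤ _ := h6

/-- the bootstrap hypotheses in terms of `dd` -/
lemma hyw (g : Gd κ lam N Q η L C ℓ B T x w f) (h : Hy κ lam η C x w n t) (p : ℕ) :
    w p t ≤ dd lam * bh lam C x n p t := by
  have h1 := h.W p
  have h2 := g.η_dd2
  have h3 := bh_pos (lam := lam) (C := C) (x := x) (n := n) (t := t) p
  nlinarith

lemma W_of' (g : Gd κ lam N Q η L C ℓ B T x w f) (ht : t ∈ Ico 0 T)
    (hz : zz C x n t ≤ 1 + C n) (hW : ∀ p, w p t ≤ 2 * η * bh lam C x n p t) (m : ℕ) :
    √(Wk κ w m t) ≤ 2002 / 1000 * η * bh lam C x n m t := by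
  have hη := g.η0
  have hb := bh_pos (lam := lam) (C := C) (x := x) (n := n) (t := t) m
  have h1 := g.W_of ht m (a := 2 * η * bh lam C x n m t) (by positivity) (fun k => by
    refine (hW (m + k)).trans ?_
    have := bh_anti' g.q hz (Nat.le_add_right m k)
    gcongr)
  linarith

/-- the tail norm of the other modes, from the bootstrap hypotheses -/
lemma hyW (g : Gd κ lam N Q η L C ℓ B T x w f) (ht : t ∈ Ico 0 T)
    (hz : zz C x n t ≤ 1 + C n) (h : Hy κ lam η C x w n t) (m : ℕ) :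
    √(Wk κ w m t) ≤ 2 * dd lam * bh lam C x n m t := by
  have h1 := g.W_of' ht hz (fun p => (h.W p).le) m
  have h2 := g.η_dd2
  have h3 := bh_pos (lam := lam) (C := C) (x := x) (n := n) (t := t) m
  have hη := g.η0
  have hd := dd_pos lam
  refine h1.trans ?_
  gcongr ?_ * _
  linarith

end Gd

end Pool.Agent.Y8.SK
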