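import Pool.Agent.Y8.SK.Q2

/-! The statements of the steps of the dynamics of the reduced system. -/

open Set Filter Topology MeasureTheory

set_option autoImplicit false

namespace Pool.Agent.Y8.SK

open Pool.Agent.Y5.E (At Aw Ut Uw loc)
open Pool.Agent.Y5.F (vfk Yk Wk)
open Pool.Agent.Y6.S (Pe6 SysR Tk Rk)
open Pool.Agent.Y8.EP (EE EE_pos dd Pp Pn zz th bb nb Cur Low Ub GrowE)

/-- A priori bounds (upper bounds of the active modes: trap `√Y ≤ 3/2`). -/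
def S_UB : Prop := ∀ (κ lam N Q η : ℝ) (L C ℓ : ℕ → ℝ) (B : ℕ → ℕ → ℝ) (T : ℝ)
  (x w f : ℕ → ℝ → ℝ) (n : ℕ) (σ : ℕ → ℝ) (t1 : ℝ),
  Gd κ lam N Q η L C ℓ B T x w f → Stg κ lam η L T x w n σ → t1 ≤ T →
  t1 ≤ σ n + 62 / 100 * lam / L n → (∀ τ ∈ Ico 0 t1, ∀ p, w p τ ≤ 2 * η) →
  Ub κ lam L x w n σ t1 ∧ ∀ i ≤ n, (t1 - σ i) * L i ≤ 6201 / 10000 * lam

/-- The growth of the mode `n+1` and the lower bound of the mode `n` during a stage, under the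
bootstrap hypotheses. -/
def S_RAT : Prop := ∀ (κ lam N Q η : ℝ) (L C ℓ : ℕ → ℝ) (B : ℕ → ℕ → ℝ) (T : ℝ)
  (x w f : ℕ → ℝ → ℝ) (n : ℕ) (σ : ℕ → ℝ) (t1 t : ℝ),
  Gd κ lam N Q η L C ℓ B T x w f → Stg κ lam η L T x w n σ → Cur κ lam L T x w n σ t1 →
  Ub κ lam L x w n σ t1 →
  t ∈ Ioo (σ n) t1 → (∀ τ ∈ Ico (σ n) t, Hy κ lam η C x w n τ) →
  (∀ τ ∈ Ioo (σ n) t, ∃ r', HasDerivAt (zz C x n) r' τ ∧
    985 / 10000 * (L n * zz C x n τ) ≤ r') ∧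
  7 / 8 * C n ≤ zz C x n t ∧ 9998 / 10000 ≤ x n t ∧
  (t - σ n) * L n ≤ 611 / 1000 * lam

/-- The barriers for the energies of the tails. -/
def S_BARY : Prop := ∀ (κ lam N Q η : ℝ) (L C ℓ : ℕ → ℝ) (B : ℕ → ℕ → ℝ) (T : ℝ)
  (x w f : ℕ → ℝ → ℝ) (n : ℕ) (σ : ℕ → ℝ) (t1 t : ℝ),
  BH κ lam N Q η L C ℓ B T x w f n σ t1 t →
  ∀ τ ∈ Icc (σ n) t, ∀ j : ℕ, √(Yk κ x w (n + 2 + j) τ) ≤ bb lam C x n j τ

/-- The barriers for the negative parts of the modes. -/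
def S_BAR2 : Prop := ∀ (κ lam N Q η : ℝ) (L C ℓ : ℕ → ℝ) (B : ℕ → ℕ → ℝ) (T : ℝ)
  (x w f : ℕ → ℝ → ℝ) (n : ℕ) (σ : ℕ → ℝ) (t1 t : ℝ),
  BH κ lam N Q η L C ℓ B T x w f n σ t1 t →
  (∀ τ ∈ Icc (σ n) t, ∀ j : ℕ, √(Yk κ x w (n + 2 + j) τ) ≤ bb lam C x n j τ) →
  (∀ τ ∈ Icc (σ n) t, ∀ p, w p τ ≤ 2 * η * bh lam C x n p τ) →
  ∀ τ ∈ Icc (σ n) t, ∀ j : ℕ, -(nb lam C x n j τ) ≤ x (n + 2 + j) τ

/-- Pointwise hypotheses at the time `t` of the stage `n`. -/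
structure Pt (κ lam η : ℝ) (L C : ℕ → ℝ) (T : ℝ) (x w : ℕ → ℝ → ℝ) (n : ℕ) (t : ℝ) :
    Prop where
  mem : t ∈ Ico 0 T
  z0 : 0 ≤ zz C x n t
  z1 : zz C x n t ≤ 1 + C n
  Y : ∀ p, √(Yk κ x w p t) ≤ 2 * bh lam C x n p t
  Yl : ∀ p ≤ n + 1, √(Yk κ x w p t) ≤ 3 / 2
  W : ∀ p, w p t ≤ 2 * η * bh lam C x n p t

/-- Pointwise bounds of the quantities in the equations of the corrected other modes. -/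
structure Rb (κ lam Q : ℝ) (L C : ℕ → ℝ) (x w : ℕ → ℝ → ℝ) (n : ℕ) (t : ℝ) : Prop where
  T : ∀ p, Tk κ lam L x w p t ≤ Real.exp (1 / 2 * lam) * (L p * bh lam C x n p t)
  Al : ∀ m ≤ n, At lam x w m t + √(Yk κ x w m t) ≤ 4
  A1 : ∀ m, At lam x w m t + √(Yk κ x w m t) ≤ 6
  Af : ∀ k : ℕ, 1 ≤ k →
    At lam x w (n + 1 + k) t + √(Yk κ x w (n + 1 + k) t) ≤ 8 * (k + 1) * (√lam ^ (k - 1))⁻¹
  Rl : ∀ m ≤ n, Rk κ lam L x w m t ≤ Real.exp (3 / 4 * lam) * ((1 / 2) ^ (n - m) * L n)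
  R : ∀ m, n < m → Rk κ lam L x w m t ≤ Real.exp (3 / 4 * lam) * (L m * bh lam C x n m t)
  ql : ∀ m ≤ n, L m * (Aw lam w m t + √(Wk κ w m t)) * √(Wk κ w m t)
        + (if m = 0 then 0 else L (m - 1) * Aw lam w m t * w (m - 1) t)
      ≤ 1 / Q * ((1 / 2) ^ (n - m) * L n)
  qh : ∀ m, n < m → L m * (Aw lam w m t + √(Wk κ w m t)) * √(Wk κ w m t)
        + (if m = 0 then 0 else L (m - 1) * Aw lam w m t * w (m - 1) t)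
      ≤ 1 / Q * (L m * bh lam C x n m t)

/-- Pointwise bounds of the quantities in the equations of the corrected other modes. -/
def S_RKB : Prop := ∀ (κ lam N Q η : ℝ) (L C ℓ : ℕ → ℝ) (B : ℕ → ℕ → ℝ) (T : ℝ)
  (x w f : ℕ → ℝ → ℝ) (n : ℕ) (t : ℝ),
  Gd κ lam N Q η L C ℓ B T x w f → Pt κ lam η L C T x w n t → Rb κ lam Q L C x w n t

/-- The bounds of the corrected other modes, and of the other modes. -/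
def S_BARV : Prop := ∀ (κ lam N N₂ Q η A : ℝ) (H : ℕ → ℝ) (L C ℓ : ℕ → ℝ) (B : ℕ → ℕ → ℝ)
  (T : ℝ) (x w v f : ℕ → ℝ → ℝ) (n : ℕ) (σ : ℕ → ℝ) (t1 t : ℝ),
  BH κ lam N Q η L C ℓ B T x w f n σ t1 t → SysV κ lam N₂ Q L T x w v →
  Kon κ lam N₂ Q η H A → VS lam N₂ Q H A L v n σ →
  (∀ τ ∈ Icc (σ n) t, ∀ j : ℕ, √(Yk κ x w (n + 2 + j) τ) ≤ bb lam C x n j τ) →
  (∀ τ ∈ Icc (σ n) t, Rb κ lam Q L C x w n τ) →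
  ∀ τ ∈ Icc (σ n) t, VD lam N₂ Q H A L C x v n σ τ ∧ ∀ p, w p τ ≤ η * bh lam C x n p τ

/-- The analysis of one stage. -/
def S_CURC : Prop := ∀ (κ lam N N₂ Q η A : ℝ) (H : ℕ → ℝ) (L C ℓ : ℕ → ℝ) (B : ℕ → ℕ → ℝ)
  (T : ℝ) (x w v f : ℕ → ℝ → ℝ) (n : ℕ) (σ : ℕ → ℝ) (t1 : ℝ),
  Gd κ lam N Q η L C ℓ B T x w f → SysV κ lam N₂ Q L T x w v → Kon κ lam N₂ Q η H A →
  Stg κ lam η L T x w n σ → VS lam N₂ Q H A L v n σ → Cur κ lam L T x w n σ t1 →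
  ∀ t ∈ Ioo (σ n) t1, CurC κ lam N₂ Q η H A L C x w v n σ t

/-- Closing the bootstrap. -/
def S_CLOSE : Prop := S_UB → S_RAT → S_BARY → S_RKB → S_BARV → S_BAR2 → S_CURC

/-- Induction over the stages. -/
def S_INDV : Prop := ∀ (κ lam N N₂ Q η A : ℝ) (H : ℕ → ℝ) (L C ℓ : ℕ → ℝ) (B : ℕ → ℕ → ℝ)
  (T : ℝ) (x w v f : ℕ → ℝ → ℝ),
  Gd κ lam N Q η L C ℓ B T x w f → SysV κ lam N₂ Q L T x w v → Kon κ lam N₂ Q η H A →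
  T ≤ lam ∧ (GrowE κ lam T x w ∨
    ∃ (n₀ : ℕ) (K₀ : ℝ), ∃ s ∈ Ico 0 T, ∀ t ∈ Ico s T, ∀ k : ℕ,
      √(Yk κ x w (n₀ + k) t) ≤ K₀ * Real.exp (-(lam / 100 * k)))

/-- Induction over the stages. -/
def S_IND : Prop := S_UB → S_CURC → S_INDV

/-- The dynamics of the rescaled reduced system (`Pool.Agent.Y6.S.S_ODER`). -/
def S_ODER : Prop := ∀ (κ lam N N₂ : ℝ) (L C ℓ : ℕ → ℝ) (B : ℕ → ℕ → ℝ),
  Pe6 κ lam N L C ℓ B → 1 ≤ N₂ → ∃ Q₀ T₁ : ℝ, 1 ≤ Q₀ ∧ ∀ Q, Q₀ ≤ Q →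
    ∀ (T : ℝ) (x w v f : ℕ → ℝ → ℝ), 0 < T →
    SysR κ lam N N₂ Q (3 / 2) L C ℓ B T x w v f →
    T ≤ T₁ ∧ (GrowE κ lam T x w ∨
      ∃ (n₀ : ℕ) (K₀ : ℝ), ∃ s ∈ Ico 0 T, ∀ t ∈ Ico s T, ∀ k : ℕ,
        √(Yk κ x w (n₀ + k) t) ≤ K₀ * Real.exp (-(lam / 100 * k)))

theorem t_ODER (hK : S_KON) (hI : S_INDV) : S_ODER := by
  intro κ lam N N₂ L C ℓ B q hN
  obtain ⟨H, A, K, Q₀, hK0, hQ0, hKon⟩ := hK κ lam N₂ q.κ0 q.κ1 q.lam_big hN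
  refine ⟨Q₀, lam, hQ0, fun Q hQ T x w v f hT s => ?_⟩
  obtain ⟨h1, h2, h3⟩ := hKon Q hQ
  have hQ1 : 1 ≤ Q := hQ0.trans hQ
  exact hI κ lam N N₂ Q (K / Q) A H L C ℓ B T x w v f
    ⟨q, hT, div_pos hK0 (by linarith), h2, hQ1, h3, sysW s⟩ (sysV s) h1

end Pool.Agent.Y8.SK
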